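import Mathlib
import Pool.Agent.V11170.Mesh132

set_option autoImplicit false

namespace Pool.Agent.Results.MP_f17a8d_co.MeshCount

open Finset Pool.Agent.V11170.SemiBaxter Pool.Agent.V11170.Mesh132

/-- The permutation `π` contains the mesh pattern `(σ, R)`: there is an occurrence of `σ` at the
chosen positions such that no shaded box `(a, b)` contains a point; a point `(x, π x)` that is not
chosen lies in the box `(a, b)` when exactly `a` chosen positions are to the left of `x` and exactly
`b` chosen values are below `π x`. -/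
def MeshContains {k n : ℕ} (σ : Equiv.Perm (Fin k)) (R : Set (ℕ × ℕ))
    (π : Equiv.Perm (Fin n)) : Prop :=
  ∃ f : Fin k → Fin n, StrictMono f ∧ (∀ s t, σ s < σ t ↔ π (f s) < π (f t)) ∧
    ∀ a b, (a, b) ∈ R → ¬ ∃ x : Fin n, (∀ t, f t ≠ x) ∧
      (univ.filter (fun t => f t < x)).card = a ∧ (univ.filter (fun t => π (f t) < π x)).card = b

/-- The shaded boxes. -/
def boxes : Set (ℕ × ℕ) :=
  {(0, 2), (0, 3), (1, 2), (1, 3), (2, 0), (2, 1), (2, 2), (2, 3), (3, 1), (3, 2)}

/-- The number of permutations of length `n` avoiding `(132, R)`. -/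
noncomputable def avoidCount (n : ℕ) : ℕ :=
  Nat.card {π : Equiv.Perm (Fin n) // ¬ MeshContains (Equiv.swap (1 : Fin 3) 2) boxes π}

theorem card_three (p : Fin 3 → Prop) [DecidablePred p] :
    (univ.filter p).card = (if p 0 then 1 else 0) + (if p 1 then 1 else 0) +
      (if p 2 then 1 else 0) := by
  rw [card_filter, Fin.sum_univ_three]

theorem contains_iff {n : ℕ} (π : Equiv.Perm (Fin n)) :
    MeshContains (Equiv.swap (1 : Fin 3) 2) boxes π ↔
      ∃ y i j : Fin n, y < i ∧ (j : ℕ) = i + 1 ∧ (π i : ℕ) = π j + 1 ∧ (π j : ℕ) = π y + 1 ∧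
        ∀ x, x < i → π x < π i := by
  have s0 : Equiv.swap (1 : Fin 3) 2 0 = 0 := by decide
  have s1 : Equiv.swap (1 : Fin 3) 2 1 = 2 := by decide
  have s2 : Equiv.swap (1 : Fin 3) 2 2 = 1 := by decide
  constructor
  · rintro ⟨f, hf, hord, hbox⟩
    have h01 : f 0 < f 1 := hf (by decide)
    have h12 : f 1 < f 2 := hf (by decide)
    have o02 : π (f 0) < π (f 2) := by
      rw [← hord, s0, s2]
      decide
    have o21 : π (f 2) < π (f 1) := by
      rw [← hord, s1, s2]
      decide
    have h01' : (f 0 : ℕ) < f 1 := h01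
    have h12' : (f 1 : ℕ) < f 2 := h12
    have o02' : (π (f 0) : ℕ) < π (f 2) := o02
    have o21' : (π (f 2) : ℕ) < π (f 1) := o21
    have hcol : ∀ x : Fin n, (univ.filter (fun t => f t < x)).card =
        (if (f 0 : ℕ) < x then 1 else 0) + (if (f 1 : ℕ) < x then 1 else 0) +
          (if (f 2 : ℕ) < x then 1 else 0) := fun x => card_three _
    have hrow : ∀ x : Fin n, (univ.filter (fun t => π (f t) < π x)).card =
        (if (π (f 0) : ℕ) < π x then 1 else 0) + (if (π (f 1) : ℕ) < π x then 1 else 0) +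
          (if (π (f 2) : ℕ) < π x then 1 else 0) := fun x => card_three _
    have hne : ∀ x : Fin n, (x : ℕ) ≠ f 0 → (x : ℕ) ≠ f 1 → (x : ℕ) ≠ f 2 →
        ∀ t : Fin 3, f t ≠ x := by
      intro x h0 h1 h2 t ht
      rw [← ht] at h0 h1 h2
      fin_cases t
      · exact h0 rfl
      · exact h1 rfl
      · exact h2 rfl
    -- adjacency of positions
    have hadj : (f 2 : ℕ) = f 1 + 1 := by
      by_contra hc
      have hx : (f 1 : ℕ) + 1 < n := by
        have := (f 2).is_lt
        omega
      obtain ⟨x, hxe⟩ : ∃ x : Fin n, (x : ℕ) = f 1 + 1 := ⟨⟨f 1 + 1, hx⟩, rfl⟩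
      have hc2 : (univ.filter (fun t => f t < x)).card = 2 := by
        rw [hcol, if_pos (by omega), if_pos (by omega), if_neg (by omega)]
      have hr := hrow x
      have hle : (univ.filter (fun t => π (f t) < π x)).card ≤ 3 := by
        rw [hr]
        split_ifs <;> omega
      refine hbox 2 _ ?_ ⟨x, hne x (by omega) (by omega) (by omega), hc2, rfl⟩
      obtain ⟨r, hre⟩ : ∃ r, r = (univ.filter (fun t => π (f t) < π x)).card := ⟨_, rfl⟩
      rw [← hre] at hle ⊢
      unfold boxes
      interval_cases r <;> simp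
    -- adjacency of values
    have hval : (π (f 1) : ℕ) = π (f 2) + 1 := by
      by_contra hc
      have hx : (π (f 2) : ℕ) + 1 < n := by
        have := (π (f 1)).is_lt
        omega
      obtain ⟨x, hxe⟩ : ∃ x : Fin n, (π x : ℕ) = π (f 2) + 1 :=
        ⟨π.symm ⟨π (f 2) + 1, hx⟩, by simp⟩
      have hr2 : (univ.filter (fun t => π (f t) < π x)).card = 2 := by
        rw [hrow, if_pos (by omega), if_neg (by omega), if_pos (by omega)]
      have hr := hcol x
      have hle : (univ.filter (fun t => f t < x)).card ≤ 3 := by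
        rw [hr]
        split_ifs <;> omega
      have hx0 : (x : ℕ) ≠ f 0 := fun h => by
        rw [Fin.ext h] at hxe
        omega
      have hx1 : (x : ℕ) ≠ f 1 := fun h => by
        rw [Fin.ext h] at hxe
        omega
      have hx2 : (x : ℕ) ≠ f 2 := fun h => by
        rw [Fin.ext h] at hxe
        omega
      refine hbox _ 2 ?_ ⟨x, hne x hx0 hx1 hx2, rfl, hr2⟩
      obtain ⟨r, hre⟩ : ∃ r, r = (univ.filter (fun t => f t < x)).card := ⟨_, rfl⟩
      rw [← hre] at hle ⊢
      unfold boxes
      interval_cases r <;> simp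
    -- the next smaller value is to the left
    have hpos : 0 < (π (f 2) : ℕ) := by omega
    obtain ⟨y, hy⟩ : ∃ y : Fin n, (π y : ℕ) = π (f 2) - 1 :=
      ⟨π.symm ⟨π (f 2) - 1, by omega⟩, by simp⟩
    have hyl : (y : ℕ) < f 1 := by
      by_contra hc
      have hy0 : (y : ℕ) ≠ f 0 := by omega
      have hy1 : (y : ℕ) ≠ f 1 := fun h => by
        rw [Fin.ext h] at hy
        omega
      have hy2 : (y : ℕ) ≠ f 2 := fun h => by
        rw [Fin.ext h] at hy
        omega
      have hy0' : (π y : ℕ) ≠ π (f 0) := fun h => by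
        have := π.injective (Fin.ext h)
        rw [this] at hy0
        exact hy0 rfl
      refine hbox 3 1 ?_ ⟨y, hne y hy0 hy1 hy2, ?_, ?_⟩
      · unfold boxes
        simp
      · rw [hcol, if_pos (by omega), if_pos (by omega), if_pos (by omega)]
      · rw [hrow, if_pos (by omega), if_neg (by omega), if_neg (by omega)]
    -- left-to-right maximum
    refine ⟨y, f 1, f 2, hyl, hadj, hval, by omega, fun x hx => ?_⟩
    by_contra hc
    have hx' : (x : ℕ) < f 1 := hx
    have hc' : (π (f 1) : ℕ) ≤ π x := not_lt.mp hc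
    have hx0 : (x : ℕ) ≠ f 0 := fun h => by
      rw [Fin.ext h] at hc'
      omega
    have hx1 : (π (f 1) : ℕ) ≠ π x := fun h => by
      have := π.injective (Fin.ext h)
      rw [this] at hx'
      omega
    have hr3 : (univ.filter (fun t => π (f t) < π x)).card = 3 := by
      rw [hrow, if_pos (by omega), if_pos (by omega), if_pos (by omega)]
    by_cases h0 : (f 0 : ℕ) < x
    · refine hbox 1 3 ?_ ⟨x, hne x hx0 (by omega) (by omega), ?_, hr3⟩
      · unfold boxes
        simp
      · rw [hcol, if_pos h0, if_neg (by omega), if_neg (by omega)]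
    · refine hbox 0 3 ?_ ⟨x, hne x hx0 (by omega) (by omega), ?_, hr3⟩
      · unfold boxes
        simp
      · rw [hcol, if_neg h0, if_neg (by omega), if_neg (by omega)]
  · rintro ⟨y, i, j, hyi, hj, hπ1, hπ2, hmax⟩
    have hyi' : (y : ℕ) < i := hyi
    refine ⟨![y, i, j], ?_, ?_, ?_⟩
    · intro s t hst
      have hij : i < j := by
        show (i : ℕ) < j
        omega
      fin_cases s <;> fin_cases t <;> first | exact absurd hst (by decide) | skip
      · exact hyi
      · exact hyi.trans hij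
      · exact hij
    · have a1 : π y < π i := by
        show (π y : ℕ) < π i
        omega
      have a2 : π y < π j := by
        show (π y : ℕ) < π j
        omega
      have a3 : π j < π i := by
        show (π j : ℕ) < π i
        omega
      intro s t
      fin_cases s <;> fin_cases t
      · simp
      · show Equiv.swap (1 : Fin 3) 2 0 < Equiv.swap (1 : Fin 3) 2 1 ↔ π y < π i
        rw [s0, s1]
        exact iff_of_true (by decide) a1
      · show Equiv.swap (1 : Fin 3) 2 0 < Equiv.swap (1 : Fin 3) 2 2 ↔ π y < π j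
        rw [s0, s2]
        exact iff_of_true (by decide) a2
      · show Equiv.swap (1 : Fin 3) 2 1 < Equiv.swap (1 : Fin 3) 2 0 ↔ π i < π y
        rw [s0, s1]
        exact iff_of_false (by decide) (not_lt.mpr a1.le)
      · simp
      · show Equiv.swap (1 : Fin 3) 2 1 < Equiv.swap (1 : Fin 3) 2 2 ↔ π i < π j
        rw [s1, s2]
        exact iff_of_false (by decide) (not_lt.mpr a3.le)
      · show Equiv.swap (1 : Fin 3) 2 2 < Equiv.swap (1 : Fin 3) 2 0 ↔ π j < π y
        rw [s0, s2]
        exact iff_of_false (by decide) (not_lt.mpr a2.le)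
      · show Equiv.swap (1 : Fin 3) 2 2 < Equiv.swap (1 : Fin 3) 2 1 ↔ π j < π i
        rw [s1, s2]
        exact iff_of_true (by decide) a3
      · simp
    · rintro a b hab ⟨x, hx, hxa, hxb⟩
      have hx0 : y ≠ x := hx 0
      have hx1 : i ≠ x := hx 1
      have hx2 : j ≠ x := hx 2
      have e0 : (y : ℕ) ≠ x := fun h => hx0 (Fin.ext h)
      have e1 : (i : ℕ) ≠ x := fun h => hx1 (Fin.ext h)
      have e2 : (j : ℕ) ≠ x := fun h => hx2 (Fin.ext h)
      have p0 : (π y : ℕ) ≠ π x := fun h => hx0 (π.injective (Fin.ext h))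
      have p1 : (π i : ℕ) ≠ π x := fun h => hx1 (π.injective (Fin.ext h))
      have p2 : (π j : ℕ) ≠ π x := fun h => hx2 (π.injective (Fin.ext h))
      have hxa' : (if (y : ℕ) < x then 1 else 0) + (if (i : ℕ) < x then 1 else 0) +
          (if (j : ℕ) < x then 1 else 0) = a := by
        rw [← hxa, card_three]
        rfl
      have hxb' : (if (π y : ℕ) < π x then 1 else 0) + (if (π i : ℕ) < π x then 1 else 0) +
          (if (π j : ℕ) < π x then 1 else 0) = b := by
        rw [← hxb, card_three]
        rfl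
      have hmax' : (x : ℕ) < i → (π x : ℕ) < π i := fun h => hmax x h
      unfold boxes at hab
      simp only [Set.mem_insert_iff, Set.mem_singleton_iff, Prod.mk.injEq] at hab
      have hb : b = 0 ∨ b = 3 := by
        split_ifs at hxb' <;> omega
      have ha : a ≠ 2 := by
        split_ifs at hxa' <;> omega
      have hc : ¬ (a < 2 ∧ b = 3) := by
        rintro ⟨ha2, hb3⟩
        have hxi : (x : ℕ) < i := by
          split_ifs at hxa' <;> omega
        have := hmax' hxi
        split_ifs at hxb' <;> omega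
      omega

/-- Positions of the values in decreasing order. -/
def phi (n : ℕ) : Equiv.Perm (Fin n) ≃ Equiv.Perm (Fin n) where
  toFun π := Fin.revPerm.trans π.symm
  invFun τ := (Fin.revPerm.trans τ).symm
  left_inv π := by
    ext x
    simp
  right_inv τ := by
    ext x
    simp

theorem exP_phi {n : ℕ} (π : Equiv.Perm (Fin n)) (x : Fin n) :
    exP (phi n π) (n - 1 - π x) = x := by
  have h1 := (π x).is_lt
  have h2 : n - 1 - (π x : ℕ) < n := by omega
  rw [exP_of_lt _ h2]
  have h3 : (⟨n - 1 - (π x : ℕ), h2⟩ : Fin n) = Fin.rev (π x) := by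
    apply Fin.ext
    rw [Fin.val_rev]
    show n - 1 - (π x : ℕ) = _
    omega
  rw [h3]
  show ((π.symm (Fin.revPerm (Fin.rev (π x))) : Fin n) : ℕ) = x
  simp

theorem exists_val {n : ℕ} (π : Equiv.Perm (Fin n)) {s : ℕ} (hs : s < n) :
    ∃ x : Fin n, (π x : ℕ) = n - 1 - s :=
  ⟨π.symm ⟨n - 1 - s, by omega⟩, by simp⟩

theorem avoid_iff {n : ℕ} (π : Equiv.Perm (Fin n)) :
    ¬ MeshContains (Equiv.swap (1 : Fin 3) 2) boxes π ↔ O n (exP (phi n π)) = ∅ := by
  rw [contains_iff]
  constructor
  · intro h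
    rw [eq_empty_iff_forall_notMem]
    intro t ht
    rw [mem_O] at ht
    obtain ⟨h1, h2, h3, h4⟩ := ht
    obtain ⟨i, hi⟩ := exists_val π (show t < n by omega)
    obtain ⟨j, hj⟩ := exists_val π (show t + 1 < n by omega)
    obtain ⟨y, hy⟩ := exists_val π h1
    have e1 := exP_phi π i
    have e2 := exP_phi π j
    have e3 := exP_phi π y
    rw [hi, show n - 1 - (n - 1 - t) = t by omega] at e1
    rw [hj, show n - 1 - (n - 1 - (t + 1)) = t + 1 by omega] at e2
    rw [hy, show n - 1 - (n - 1 - (t + 2)) = t + 2 by omega] at e3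
    rw [e1, e2] at h3
    rw [e1, e3] at h4
    refine h ⟨y, i, j, h4, h3, by omega, by omega, fun x hx => ?_⟩
    by_contra hc
    have hx' : (x : ℕ) < i := hx
    have hc' : (π i : ℕ) ≤ π x := not_lt.mp hc
    have hne : (π i : ℕ) ≠ π x := fun h' => by
      rw [π.injective (Fin.ext h')] at hx'
      omega
    have h5 := (π x).is_lt
    have h6 := h2 (n - 1 - π x) (by omega)
    rw [e1, exP_phi] at h6
    omega
  · rintro h ⟨y, i, j, h1, h2, h3, h4, h5⟩
    rw [eq_empty_iff_forall_notMem] at h
    have b1 := (π i).is_lt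
    have e1 := exP_phi π i
    have e2 := exP_phi π j
    have e3 := exP_phi π y
    apply h (n - 1 - π i)
    rw [mem_O]
    rw [show n - 1 - (π j : ℕ) = n - 1 - π i + 1 by omega] at e2
    rw [show n - 1 - (π y : ℕ) = n - 1 - π i + 2 by omega] at e3
    rw [e1, e2, e3]
    refine ⟨by omega, fun m hm => ?_, h2, h1⟩
    obtain ⟨x, hx⟩ := exists_val π (show m < n by omega)
    have e4 := exP_phi π x
    rw [hx, show n - 1 - (n - 1 - m) = m by omega] at e4
    rw [e4]
    by_contra hc
    rcases Nat.lt_or_eq_of_le (not_lt.mp hc) with h6 | h6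
    · have h7 : (π x : ℕ) < π i := h5 x h6
      omega
    · rw [Fin.ext h6] at hx
      omega

theorem avoidCount_eq (n : ℕ) : avoidCount n = avoid n := by
  classical
  unfold avoidCount avoid
  rw [Nat.card_eq_fintype_card, Fintype.card_subtype]
  apply card_bij (fun π _ => phi n π)
  · intro π hπ
    rw [mem_filter] at hπ ⊢
    exact ⟨mem_univ _, (avoid_iff π).mp hπ.2⟩
  · intro π _ π' _ h
    exact (phi n).injective h
  · intro τ hτ
    rw [mem_filter] at hτ
    refine ⟨(phi n).symm τ, ?_, Equiv.apply_symm_apply _ _⟩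
    rw [mem_filter, avoid_iff, Equiv.apply_symm_apply]
    exact ⟨mem_univ _, hτ.2⟩

/-! ### power series -/

open PowerSeries in
/-- The expansion of `(1 + X^2)^{-m}`. -/
noncomputable def U (m : ℕ) : PowerSeries ℚ :=
  PowerSeries.mk (fun k => if k % 2 = 0 then
    (-1) ^ (k / 2) * ((m + k / 2 - 1).choose (k / 2) : ℚ) else 0)

theorem U_zero : U 0 = 1 := by
  ext k
  unfold U
  rw [PowerSeries.coeff_mk, PowerSeries.coeff_one]
  rcases Nat.eq_zero_or_pos k with rfl | hk
  · simp
  · rw [if_neg hk.ne']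
    split_ifs with h
    · rw [Nat.choose_eq_zero_of_lt (by omega)]
      simp
    · rfl

theorem U_succ (m : ℕ) : (1 + PowerSeries.X ^ 2) * U (m + 1) = U m := by
  ext k
  rw [add_mul, one_mul, map_add, PowerSeries.coeff_X_pow_mul']
  unfold U
  rw [PowerSeries.coeff_mk, PowerSeries.coeff_mk, PowerSeries.coeff_mk]
  by_cases hk : k % 2 = 0
  · obtain ⟨R, rfl⟩ : ∃ R, k = 2 * R := ⟨k / 2, by omega⟩
    rw [if_pos hk, if_pos hk, show 2 * R / 2 = R by omega]
    cases R with
    | zero => simp
    | succ R =>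
      rw [if_pos (by omega), if_pos (by omega), show (2 * (R + 1) - 2) / 2 = R by omega,
        show m + 1 + (R + 1) - 1 = m + R + 1 by omega, show m + 1 + R - 1 = m + R by omega,
        show m + (R + 1) - 1 = m + R by omega, Nat.choose_succ_succ]
      push_cast
      ring
  · rw [if_neg hk, if_neg hk]
    split_ifs with h1 h2
    · omega
    · simp
    · simp

theorem U_eq (m : ℕ) : U m = ((1 + PowerSeries.X ^ 2 : PowerSeries ℚ)⁻¹) ^ m := by
  have h0 : PowerSeries.constantCoeff (1 + PowerSeries.X ^ 2 : PowerSeries ℚ) ≠ 0 := by simp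
  induction m with
  | zero => rw [U_zero, pow_zero]
  | succ m ih =>
    rw [pow_succ, ← ih, PowerSeries.eq_mul_inv_iff_mul_eq h0, mul_comm]
    exact U_succ m

theorem coeff_pow (n m : ℕ) :
    PowerSeries.coeff n ((PowerSeries.X * (1 + PowerSeries.X ^ 2 : PowerSeries ℚ)⁻¹) ^ m) =
      if m ≤ n then (if (n - m) % 2 = 0 then
        (-1) ^ ((n - m) / 2) * ((m + (n - m) / 2 - 1).choose ((n - m) / 2) : ℚ) else 0)
      else 0 := by
  rw [mul_pow, ← U_eq, PowerSeries.coeff_X_pow_mul']
  unfold U
  rw [PowerSeries.coeff_mk]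

theorem sum_even (n : ℕ) (h : ℕ → ℚ) :
    ∑ j ∈ range (n + 1), (if j % 2 = 0 then h (j / 2) else 0) =
      ∑ R ∈ range (n + 1), if 2 * R ≤ n then h R else 0 := by
  rw [← sum_filter, ← sum_filter]
  apply sum_nbij' (fun j => j / 2) (fun R => 2 * R)
  · intro j hj
    rw [mem_filter, mem_range] at hj ⊢
    omega
  · intro R hR
    rw [mem_filter, mem_range] at hR ⊢
    omega
  · intro j hj
    rw [mem_filter, mem_range] at hj
    show 2 * (j / 2) = j
    omega
  · intro R _
    show 2 * R / 2 = R
    omega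
  · intro j _
    rfl

theorem coeff_identity (n : ℕ) : (avoidCount n : ℚ) = ∑ m ∈ range (n + 1),
    (m.factorial : ℚ) * PowerSeries.coeff n
      ((PowerSeries.X * (1 + PowerSeries.X ^ 2 : PowerSeries ℚ)⁻¹) ^ m) := by
  have h1 : (avoidCount n : ℚ) = ∑ R ∈ range (n + 1), if 2 * R ≤ n then
      (-1) ^ R * (((n - 2 * R).factorial * (n - R - 1).choose R : ℕ) : ℚ) else 0 := by
    rw [avoidCount_eq]
    have := congrArg (fun z : ℤ => (z : ℚ)) (avoid_formula n)
    push_cast at this ⊢
    exact this
  rw [h1, ← sum_even n (fun R => (-1) ^ R * (((n - 2 * R).factorial *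
    (n - R - 1).choose R : ℕ) : ℚ)), ← sum_range_reflect]
  apply sum_congr rfl
  intro m hm
  rw [mem_range] at hm
  have e1 : n + 1 - 1 - m = n - m := by omega
  rw [e1]
  by_cases h : (n - m) % 2 = 0
  · rw [if_pos h, coeff_pow, if_pos (show m ≤ n by omega), if_pos h,
      show n - 2 * ((n - m) / 2) = m by omega,
      show n - (n - m) / 2 - 1 = m + (n - m) / 2 - 1 by omega]
    push_cast
    ring
  · rw [if_neg h, coeff_pow, if_pos (show m ≤ n by omega), if_neg h, mul_zero]

open scoped PowerSeries.WithPiTopology in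
/-- The generating function of the permutations avoiding the mesh pattern is
`∑ m! (x / (1 + x^2))^m`: coefficientwise (the terms with `m > n` do not contribute to `x^n`), and
as a convergent sum of formal power series. -/
theorem result :
    (∀ n : ℕ, (avoidCount n : ℚ) = ∑ m ∈ range (n + 1), (m.factorial : ℚ) *
      PowerSeries.coeff n ((PowerSeries.X * (1 + PowerSeries.X ^ 2 : PowerSeries ℚ)⁻¹) ^ m)) ∧
    (∀ n m : ℕ, n < m →
      PowerSeries.coeff n ((PowerSeries.X * (1 + PowerSeries.X ^ 2 : PowerSeries ℚ)⁻¹) ^ m) = 0) ∧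
    HasSum (fun m : ℕ => (m.factorial : ℚ) •
      ((PowerSeries.X * (1 + PowerSeries.X ^ 2 : PowerSeries ℚ)⁻¹) ^ m))
      (PowerSeries.mk (fun n => (avoidCount n : ℚ))) := by
  have hvan : ∀ n m : ℕ, n < m → PowerSeries.coeff n
      ((PowerSeries.X * (1 + PowerSeries.X ^ 2 : PowerSeries ℚ)⁻¹) ^ m) = 0 := by
    intro n m h
    rw [coeff_pow, if_neg (by omega)]
  refine ⟨coeff_identity, hvan, ?_⟩
  rw [PowerSeries.WithPiTopology.hasSum_iff_hasSum_coeff]
  intro n
  rw [PowerSeries.coeff_mk, coeff_identity]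
  have h1 : HasSum (fun m : ℕ => PowerSeries.coeff n ((m.factorial : ℚ) •
      ((PowerSeries.X * (1 + PowerSeries.X ^ 2 : PowerSeries ℚ)⁻¹) ^ m)))
      (∑ m ∈ range (n + 1), PowerSeries.coeff n ((m.factorial : ℚ) •
      ((PowerSeries.X * (1 + PowerSeries.X ^ 2 : PowerSeries ℚ)⁻¹) ^ m))) := by
    apply hasSum_sum_of_ne_finset_zero
    intro m hm
    rw [mem_range] at hm
    rw [PowerSeries.coeff_smul, hvan n m (by omega), smul_zero]
  exact h1

end Pool.Agent.Results.MP_f17a8d_co.MeshCount
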